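import Pool.Agent.W2helper50.KA.OneWay

/-!
# Random functions are one-way, also for adversaries with algebraic queries, continued
-/

set_option autoImplicit false

namespace Pool.Agent.W2helper50.KA

open Finset Classical

variable {X Y H : Type} [Fintype X] [Fintype Y] [AddCommGroup Y] [AddCommGroup H] [Fintype H]

theorem card_S_le' (P : Alg ((X → Y) →+ H) H X) (q : ℕ) (f : X → Y)
    (hq : P.cost (fun φ => φ f) ≤ q) :
    (S P ⊤ f).card ≤ q * Nat.clog 2 (Fintype.card H) + Nat.clog 2 (Fintype.card Y) := by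
  have h := card_S_le P ⊤ f
  rw [AddSubgroup.index_top, one_mul] at h
  have hH : Fintype.card H ≤ 2 ^ Nat.clog 2 (Fintype.card H) := Nat.le_pow_clog (by norm_num) _
  have hY : Fintype.card Y ≤ 2 ^ Nat.clog 2 (Fintype.card Y) := Nat.le_pow_clog (by norm_num) _
  have h1 : 2 ^ (S P ⊤ f).card ≤
      2 ^ (q * Nat.clog 2 (Fintype.card H) + Nat.clog 2 (Fintype.card Y)) := by
    refine h.trans ?_
    rw [pow_add]
    apply Nat.mul_le_mul _ hY
    calc Fintype.card H ^ P.cost (fun φ => φ f) ≤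
        (2 ^ Nat.clog 2 (Fintype.card H)) ^ P.cost (fun φ => φ f) := Nat.pow_le_pow_left hH _
      _ = 2 ^ (Nat.clog 2 (Fintype.card H) * P.cost (fun φ => φ f)) := by rw [← pow_mul]
      _ ≤ 2 ^ (q * Nat.clog 2 (Fintype.card H)) := by
          apply Nat.pow_le_pow_right (by norm_num)
          rw [mul_comm]
          exact Nat.mul_le_mul_right _ hq
  exact (Nat.pow_le_pow_iff_right (by norm_num)).1 h1

omit [AddCommGroup Y] in
theorem num_eq_sum (p : (X → Y) → Prop) : num p = ∑ f, if p f then 1 else 0 := by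
  unfold num
  rw [card_eq_sum_ones, fset, sum_filter]

omit [AddCommGroup Y] in
theorem sum_ite_mem' (T : Finset X) :
    (∑ x : X, @ite ℕ (x ∈ T) (propDecidable _) 1 0) = T.card := by
  have : ∀ x : X, @ite ℕ (x ∈ T) (propDecidable _) 1 0 = if x ∈ T then 1 else 0 := by
    intro x
    split_ifs <;> rfl
  simp only [this]
  simp

omit [Fintype H] in
/-- The sum over all points. -/
theorem sum_num_S (P : Alg ((X → Y) →+ H) H X) (B : ℕ) (hB : ∀ f, (S P ⊤ f).card ≤ B) :
    ∑ x, num (fun f => x ∈ S P ⊤ f) ≤ Fintype.card (X → Y) * B := by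
  simp only [num_eq_sum]
  rw [sum_comm]
  refine (sum_le_card_nsmul _ _ B ?_).trans (by rw [card_univ, smul_eq_mul])
  intro f _
  rw [sum_ite_mem']
  exact hB f

theorem ind₁' (P : Alg ((X → Y) →+ H) H X) (x : X) (y : Y) :
    Fintype.card Y * num (fun f => x ∈ S P ⊤ f ∧ f x = y) = num (fun f => x ∈ S P ⊤ f) := by
  have hx : (⊤ : AddSubgroup (X → Y)).map (at' x) = ⊤ := by
    rw [eq_top_iff]
    intro z _
    exact ⟨fun _ => z, trivial, rfl⟩
  have h := ind₁ P ⊤ 0 x y hx
  have e1 : num (fun f => f - 0 ∈ (⊤ : AddSubgroup (X → Y)) ∧ x ∈ S P ⊤ f ∧ f x = y) =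
      num (fun f => x ∈ S P ⊤ f ∧ f x = y) :=
    num_congr (fun f => ⟨fun hf => hf.2, fun hf => ⟨trivial, hf⟩⟩)
  have e2 : num (fun f => f - 0 ∈ (⊤ : AddSubgroup (X → Y)) ∧ x ∈ S P ⊤ f) =
      num (fun f => x ∈ S P ⊤ f) :=
    num_congr (fun f => ⟨fun hf => hf.2, fun hf => ⟨trivial, hf⟩⟩)
  rw [e1, e2] at h
  exact h

theorem ind₂' (P : Alg ((X → Y) →+ H) H X) (x : X) (y : Y) :
    Fintype.card Y * num (fun f => Ev P ⊤ x y f ∧ f x = y) = num (fun f => Ev P ⊤ x y f) := by
  have h := ind₂ P ⊤ 0 x y y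
  have e1 : num (fun f => f - 0 ∈ (⊤ : AddSubgroup (X → Y)) ∧ Ev P ⊤ x y f ∧ f x = y) =
      num (fun f => Ev P ⊤ x y f ∧ f x = y) :=
    num_congr (fun f => ⟨fun hf => hf.2, fun hf => ⟨trivial, hf⟩⟩)
  have e2 : num (fun f => f - 0 ∈ (⊤ : AddSubgroup (X → Y)) ∧ Ev P ⊤ x y f) =
      num (fun f => Ev P ⊤ x y f) :=
    num_congr (fun f => ⟨fun hf => hf.2, fun hf => ⟨trivial, hf⟩⟩)
  rw [e1, e2] at h
  exact h

omit [AddCommGroup Y] in
theorem num_or_le (p q r : (X → Y) → Prop) (h : ∀ f, p f → q f ∨ r f) :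
    num p ≤ num q + num r := by
  unfold num
  refine (card_le_card ?_).trans (card_union_le _ _)
  intro f hf
  rw [mem_union, mem_fset, mem_fset]
  exact h f (mem_fset.1 hf)

omit [AddCommGroup Y] in
theorem num_exists_le (p : X → (X → Y) → Prop) (r : (X → Y) → Prop)
    (h : ∀ f, r f → ∃ x, p x f) : num r ≤ ∑ x, num (p x) := by
  unfold num
  refine (card_le_card (t := univ.biUnion (fun x => fset (p x))) ?_).trans card_biUnion_le
  intro f hf
  obtain ⟨x, hx⟩ := h f (mem_fset.1 hf)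
  rw [mem_biUnion]
  exact ⟨x, mem_univ _, mem_fset.2 hx⟩

/-- The number of the functions for which the algorithm finds an element with value `y`. -/
theorem hit_le [Nontrivial Y] (P : Alg ((X → Y) →+ H) H X) (B : ℕ)
    (hB : ∀ f, (S P ⊤ f).card ≤ B) (y : Y) :
    Fintype.card Y * num (fun f => f (P.out (fun φ => φ f)) = y) ≤
      Fintype.card (X → Y) * B := by
  have h1 : num (fun f => f (P.out (fun φ => φ f)) = y) ≤
      ∑ x, num (fun f => x ∈ S P ⊤ f ∧ f x = y) :=
    num_exists_le (fun x f => x ∈ S P ⊤ f ∧ f x = y) _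
      (fun f hf => ⟨P.out (fun φ => φ f), out_mem_S P ⊤ f, hf⟩)
  refine (Nat.mul_le_mul_left _ h1).trans ?_
  rw [mul_sum, sum_congr rfl (fun x _ => ind₁' P x y)]
  exact sum_num_S P B hB

theorem oneWay_nat [Nontrivial Y] (Adv : Y → Alg ((X → Y) →+ H) H X) (B : ℕ)
    (hB : ∀ y f, (S (Adv y) ⊤ f).card ≤ B) :
    Fintype.card Y * ∑ x, num (fun f => f ((Adv (f x)).out (fun φ => φ f)) = f x) ≤
      Fintype.card (X → Y) * B * (Fintype.card Y + Fintype.card X) := by
  have hY : 0 < Fintype.card Y := Fintype.card_pos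
  -- one point
  have h1 : ∀ x : X, Fintype.card Y * num (fun f => f ((Adv (f x)).out (fun φ => φ f)) = f x) ≤
      ∑ y, num (fun f => x ∈ S (Adv y) ⊤ f) +
        ∑ y, num (fun f => f ((Adv y).out (fun φ => φ f)) = y) := by
    intro x
    rw [num_split _ (fun f => f x), mul_sum, ← sum_add_distrib]
    apply sum_le_sum
    intro y _
    have h2 : num (fun f => f ((Adv (f x)).out (fun φ => φ f)) = f x ∧ f x = y) ≤
        num (fun f => x ∈ S (Adv y) ⊤ f ∧ f x = y) +
          num (fun f => Ev (Adv y) ⊤ x y f ∧ f x = y) := by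
      apply num_or_le
      rintro f ⟨hf, hfx⟩
      rw [hfx] at hf
      by_cases hS : x ∈ S (Adv y) ⊤ f
      · exact Or.inl ⟨hS, hfx⟩
      · exact Or.inr ⟨⟨hS, hf⟩, hfx⟩
    refine (Nat.mul_le_mul_left _ h2).trans ?_
    rw [mul_add, ind₁', ind₂']
    exact Nat.add_le_add_left (num_mono (fun f hf => hf.2)) _
  -- all points
  rw [mul_sum]
  refine (sum_le_sum (fun x _ => h1 x)).trans ?_
  rw [sum_add_distrib]
  have h3 : ∑ x : X, ∑ y, num (fun f => x ∈ S (Adv y) ⊤ f) ≤
      Fintype.card (X → Y) * B * Fintype.card Y := by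
    rw [sum_comm]
    refine (sum_le_card_nsmul _ _ _ (fun y _ => sum_num_S (Adv y) B (hB y))).trans ?_
    rw [card_univ, smul_eq_mul, mul_comm]
  have h4 : ∑ y, num (fun f => f ((Adv y).out (fun φ => φ f)) = y) ≤
      Fintype.card (X → Y) * B := by
    have h5 : Fintype.card Y * ∑ y, num (fun f => f ((Adv y).out (fun φ => φ f)) = y) ≤
        Fintype.card Y * (Fintype.card (X → Y) * B) := by
      rw [mul_sum]
      refine (sum_le_card_nsmul _ _ _ (fun y _ => hit_le (Adv y) B (hB y) y)).trans ?_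
      rw [card_univ, smul_eq_mul]
    exact Nat.le_of_mul_le_mul_left h5 hY
  have h6 : ∑ _x : X, ∑ y, num (fun f => f ((Adv y).out (fun φ => φ f)) = y) ≤
      Fintype.card X * (Fintype.card (X → Y) * B) := by
    rw [sum_const, card_univ, smul_eq_mul]
    exact Nat.mul_le_mul_left _ h4
  calc _ ≤ Fintype.card (X → Y) * B * Fintype.card Y +
        Fintype.card X * (Fintype.card (X → Y) * B) := Nat.add_le_add h3 h6
    _ = _ := by ring

/-- The probability (over the input `x` and the function `f`) that the adversary finds a preimage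
of `f x`. -/
noncomputable def invProb (Adv : Y → Alg ((X → Y) →+ H) H X) : ℝ :=
  (Nat.card {p : X × (X → Y) // p.2 ((Adv (p.2 p.1)).out (fun φ => φ p.2)) = p.2 p.1} : ℝ) /
    (Nat.card (X × (X → Y)) : ℝ)

theorem oneWay [Nontrivial Y] [Nonempty X] (Adv : Y → Alg ((X → Y) →+ H) H X) (q : ℕ)
    (hq : ∀ y f, (Adv y).cost (fun φ => φ f) ≤ q) :
    invProb Adv ≤ (q * Nat.clog 2 (Nat.card H) + Nat.clog 2 (Nat.card Y) : ℝ) *
      (1 / Nat.card X + 1 / Nat.card Y) := by
  have hN := oneWay_nat Adv (q * Nat.clog 2 (Fintype.card H) + Nat.clog 2 (Fintype.card Y))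
    (fun y f => card_S_le' (Adv y) q f (hq y f))
  have hcount : Nat.card {p : X × (X → Y) // p.2 ((Adv (p.2 p.1)).out (fun φ => φ p.2)) =
      p.2 p.1} = ∑ x, num (fun f => f ((Adv (f x)).out (fun φ => φ f)) = f x) := by
    rw [Nat.card_eq_fintype_card, Fintype.card_subtype, card_eq_sum_ones, sum_filter,
      Fintype.sum_prod_type]
    apply sum_congr rfl
    intro x _
    rw [num_eq_sum]
  have hX0 : (0 : ℝ) < Fintype.card X := by exact_mod_cast Fintype.card_pos
  have hY0 : (0 : ℝ) < Fintype.card Y := by exact_mod_cast Fintype.card_pos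
  have hG0 : (0 : ℝ) < Fintype.card (X → Y) := by exact_mod_cast Fintype.card_pos
  rw [invProb, hcount, Nat.card_eq_fintype_card, Nat.card_eq_fintype_card,
    Nat.card_eq_fintype_card, Nat.card_eq_fintype_card, Fintype.card_prod]
  have hN' : (Fintype.card Y : ℝ) *
      ((∑ x, num (fun f => f ((Adv (f x)).out (fun φ => φ f)) = f x) : ℕ) : ℝ) ≤
      Fintype.card (X → Y) * (q * Nat.clog 2 (Fintype.card H) + Nat.clog 2 (Fintype.card Y)) *
        (Fintype.card Y + Fintype.card X) := by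
    exact_mod_cast hN
  rw [div_le_iff₀ (by push_cast; positivity)]
  generalize ((∑ x, num (fun f => f ((Adv (f x)).out (fun φ => φ f)) = f x) : ℕ) : ℝ) = N at hN'
  push_cast
  have h1 : (q * Nat.clog 2 (Fintype.card H) + Nat.clog 2 (Fintype.card Y) : ℝ) *
      (1 / Fintype.card X + 1 / Fintype.card Y) * (Fintype.card X * Fintype.card (X → Y)) =
      (Fintype.card (X → Y) * (q * Nat.clog 2 (Fintype.card H) + Nat.clog 2 (Fintype.card Y)) *
        (Fintype.card Y + Fintype.card X)) / Fintype.card Y := by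
    field_simp
  rw [h1, le_div_iff₀ hY0]
  linarith

end Pool.Agent.W2helper50.KA
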