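import Pool.Agent.W2helper50.KA.Glue

/-!
# The attack on key agreement
-/

set_option autoImplicit false

namespace Pool.Agent.W2helper50.KA

variable {G H I M K RA RB : Type} [AddCommGroup G] [AddCommGroup H]

/-- Make all queries of a list. -/
def askList : List I → (List (I × H) → Alg I H K) → Alg I H K
  | [], c => c []
  | i :: l, c => Alg.ask i (fun h => askList l (fun r => c ((i, h) :: r)))

omit [AddCommGroup H] in
theorem askList_spec (o : I → H) : ∀ (l : List I) (c : List (I × H) → Alg I H K),
    (askList l c).out o = (c (l.map (fun i => (i, o i)))).out o ∧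
    (askList l c).cost o = (c (l.map (fun i => (i, o i)))).cost o + l.length := by
  intro l
  induction l with
  | nil => intro c; simp [askList]
  | cons i l ih =>
    intro c
    have h := ih (fun r => c ((i, o i) :: r))
    simp only [askList, Alg.out, Alg.cost, List.map_cons, List.length_cons]
    rw [h.1, h.2]
    exact ⟨rfl, by omega⟩

/-- `Sim ev A t kn r f qs k`: with the coins `r` and the oracle `f`, which agrees with the known
answers `kn`, Alice takes part in the conversation `t`, with the queries `qs` and the key `k`. -/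
def Sim (ev : I → G →+ H) (A : RA → Party I H M K) (t : List (Bool × M)) (kn : List (I × H))
    (r : RA) (f : G) (qs : List I) (k : K) : Prop :=
  (∀ p ∈ kn, ev p.1 f = p.2) ∧ Plays true (fun i => ev i f) (A r) t qs k

/-- Two simulated Alices with different keys. -/
def Two (ev : I → G →+ H) (A : RA → Party I H M K) (t : List (Bool × M)) (kn : List (I × H))
    (q₁ q₂ : List I) : Prop :=
  ∃ r₁ f₁ k₁ r₂ f₂ k₂, Sim ev A t kn r₁ f₁ q₁ k₁ ∧ Sim ev A t kn r₂ f₂ q₂ k₂ ∧ k₁ ≠ k₂

open Classical in
/-- The key of some simulated Alice. -/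
noncomputable def anyKey [Nonempty K] (ev : I → G →+ H) (A : RA → Party I H M K)
    (t : List (Bool × M)) (kn : List (I × H)) : K :=
  if h : ∃ k r f qs, Sim ev A t kn r f qs k then h.choose else Classical.arbitrary K

open Classical in
/-- The attack: as long as there are two simulated Alices with different keys, their queries are
made. -/
noncomputable def eve [Nonempty K] (ev : I → G →+ H) (A : RA → Party I H M K)
    (t : List (Bool × M)) : ℕ → List (I × H) → Alg I H K
  | 0, kn => Alg.done (anyKey ev A t kn)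
  | n + 1, kn =>
    if h : ∃ p : List I × List I, Two ev A t kn p.1 p.2 then
      askList (h.choose.1 ++ h.choose.2) (fun r => eve ev A t n (kn ++ r))
    else Alg.done (anyKey ev A t kn)

theorem anyKey_spec [Nonempty K] {ev : I → G →+ H} {A : RA → Party I H M K}
    {t : List (Bool × M)} {kn : List (I × H)} (h : ∃ k r f qs, Sim ev A t kn r f qs k) :
    ∃ r f qs, Sim ev A t kn r f qs (anyKey ev A t kn) := by
  rw [anyKey, dif_pos h]
  exact h.choose_spec

theorem eve_spec [Finite G] [Nonempty K] (ev : I → G →+ H) (A : RA → Party I H M K)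
    (B : RB → Party I H M K) (a : ℕ)
    (hA : ∀ r f t qs k, Plays true (fun i => ev i f) (A r) t qs k → qs.length ≤ a)
    (hag : ∀ rA rB f t qA kA qB kB, Plays true (fun i => ev i f) (A rA) t qA kA →
      Plays false (fun i => ev i f) (B rB) t qB kB → kA = kB)
    (rA : RA) (rB : RB) (f : G) (t : List (Bool × M)) (qA qB : List I) (kA kB : K)
    (hpA : Plays true (fun i => ev i f) (A rA) t qA kA)
    (hpB : Plays false (fun i => ev i f) (B rB) t qB kB) :
    ∀ (n : ℕ) (kn : List (I × H)), (∀ p ∈ kn, ev p.1 f = p.2) →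
      (Ann ev qB).relIndex (Ann ev (kn.map Prod.fst)) ≤ 2 ^ n →
      (eve ev A t n kn).out (fun i => ev i f) = kB ∧
        (eve ev A t n kn).cost (fun i => ev i f) ≤ 2 * a * n := by
  -- a simulated Alice who can be glued has the right key
  have hgood : ∀ (kn : List (I × H)), (∀ p ∈ kn, ev p.1 f = p.2) → ∀ r f' qs k,
      Sim ev A t kn r f' qs k →
      (Ann ev (kn.map Prod.fst) ⊓ Ann ev qs) ⊔ (Ann ev (kn.map Prod.fst) ⊓ Ann ev qB) =
        Ann ev (kn.map Prod.fst) → k = kB := by
    intro kn hkn r f' qs k hs hsup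
    have hd : f' - f ∈ Ann ev (kn.map Prod.fst) := by
      apply sub_mem_Ann
      intro i hi
      rw [List.mem_map] at hi
      obtain ⟨p, hp, rfl⟩ := hi
      rw [hs.1 p hp, hkn p hp]
    obtain ⟨g, h1, h2⟩ := glue hd hs.2 hpB hsup
    exact hag r rB g t qs k qB kB h1 h2
  have hreal : ∀ (kn : List (I × H)), (∀ p ∈ kn, ev p.1 f = p.2) → Sim ev A t kn rA f qA kA :=
    fun kn hkn => ⟨hkn, hpA⟩
  have hkey : kA = kB := hag rA rB f t qA kA qB kB hpA hpB
  intro n
  induction n with
  | zero =>
    intro kn hkn hidx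
    refine ⟨?_, by simp [eve, Alg.cost]⟩
    simp only [eve, Alg.out]
    obtain ⟨r, f', qs, hs⟩ := anyKey_spec ⟨kA, rA, f, qA, hreal kn hkn⟩
    apply hgood kn hkn r f' qs _ hs
    have h0 : (Ann ev qB).relIndex (Ann ev (kn.map Prod.fst)) ≠ 0 :=
      AddSubgroup.FiniteIndex.index_ne_zero
    have h1 : (Ann ev qB).relIndex (Ann ev (kn.map Prod.fst)) = 1 := by
      simp only [pow_zero] at hidx
      omega
    rw [AddSubgroup.relIndex_eq_one] at h1
    rw [inf_eq_left.2 h1]
    exact sup_eq_right.2 inf_le_left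
  | succ n ih =>
    intro kn hkn hidx
    by_cases h : ∃ p : List I × List I, Two ev A t kn p.1 p.2
    · obtain ⟨p, hp⟩ : ∃ p, p = h.choose := ⟨_, rfl⟩
      have hp2 : Two ev A t kn p.1 p.2 := hp ▸ h.choose_spec
      have heve : eve ev A t (n + 1) kn =
          askList (p.1 ++ p.2) (fun r => eve ev A t n (kn ++ r)) := by
        rw [eve, dif_pos h, ← hp]
      have hsp := askList_spec (K := K) (fun i => ev i f) (p.1 ++ p.2)
        (fun r => eve ev A t n (kn ++ r))
      obtain ⟨kn', hkn'⟩ : ∃ kn', kn' = kn ++ (p.1 ++ p.2).map (fun i => (i, ev i f)) := ⟨_, rfl⟩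
      have hk1 : ∀ x ∈ kn', ev x.1 f = x.2 := by
        intro x hx
        rw [hkn', List.mem_append] at hx
        rcases hx with hx | hx
        · exact hkn x hx
        · rw [List.mem_map] at hx
          obtain ⟨i, _, rfl⟩ := hx
          rfl
      have hfst : kn'.map Prod.fst = kn.map Prod.fst ++ (p.1 ++ p.2) := by
        rw [hkn', List.map_append, List.map_map]
        congr 1
        exact List.map_id _
      obtain ⟨r₁, f₁, k₁, r₂, f₂, k₂, hs1, hs2, hne⟩ := hp2
      have hidx' : (Ann ev qB).relIndex (Ann ev (kn'.map Prod.fst)) ≤ 2 ^ n := by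
        rw [hfst, Ann_append, Ann_append]
        have key : ∀ q : List I,
            (Ann ev (kn.map Prod.fst) ⊓ Ann ev q) ⊔ (Ann ev (kn.map Prod.fst) ⊓ Ann ev qB) ≠
              Ann ev (kn.map Prod.fst) → Ann ev p.1 ⊓ Ann ev p.2 ≤ Ann ev q →
            (Ann ev qB).relIndex (Ann ev (kn.map Prod.fst) ⊓ (Ann ev p.1 ⊓ Ann ev p.2)) ≤
              2 ^ n := by
          intro q hq hle
          have h1 := drop hq
          have h2 : (Ann ev qB).relIndex (Ann ev (kn.map Prod.fst) ⊓ (Ann ev p.1 ⊓ Ann ev p.2)) ≤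
              (Ann ev qB).relIndex (Ann ev (kn.map Prod.fst) ⊓ Ann ev q) :=
            relIndex_mono (inf_le_inf_left _ hle)
          rw [pow_succ] at hidx
          omega
        by_cases h1 : k₁ = kB
        · have h2 : k₂ ≠ kB := fun h2 => hne (h1.trans h2.symm)
          exact key p.2 (fun hc => h2 (hgood kn hkn r₂ f₂ p.2 k₂ hs2 hc)) inf_le_right
        · exact key p.1 (fun hc => h1 (hgood kn hkn r₁ f₁ p.1 k₁ hs1 hc)) inf_le_left
      have hih := ih kn' hk1 hidx'
      have l1 := hA r₁ f₁ t p.1 k₁ hs1.2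
      have l2 := hA r₂ f₂ t p.2 k₂ hs2.2
      rw [heve, hsp.1, hsp.2]
      simp only [← hkn']
      refine ⟨hih.1, ?_⟩
      rw [List.length_append]
      have : 2 * a * (n + 1) = 2 * a * n + 2 * a := by ring
      omega
    · rw [eve, dif_neg h]
      refine ⟨?_, by simp [Alg.cost]⟩
      simp only [Alg.out]
      obtain ⟨r, f', qs, hs⟩ := anyKey_spec ⟨kA, rA, f, qA, hreal kn hkn⟩
      by_contra hcon
      apply h
      refine ⟨(qs, qA), r, f', _, rA, f, kA, hs, hreal kn hkn, ?_⟩
      rw [hkey]
      exact hcon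

/-- Key agreement is impossible. -/
theorem keyAgreement [Finite G] [Finite H] (ev : I → G →+ H) (A : RA → Party I H M K)
    (B : RB → Party I H M K) (a b : ℕ)
    (hA : ∀ r f t qs k, Plays true (fun i => ev i f) (A r) t qs k → qs.length ≤ a)
    (hB : ∀ r f t qs k, Plays false (fun i => ev i f) (B r) t qs k → qs.length ≤ b)
    (hag : ∀ rA rB f t qA kA qB kB, Plays true (fun i => ev i f) (A rA) t qA kA →
      Plays false (fun i => ev i f) (B rB) t qB kB → kA = kB) :
    ∃ Eve : List (Bool × M) → Option (Alg I H K), ∀ rA rB f t qA kA qB kB,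
      Plays true (fun i => ev i f) (A rA) t qA kA →
      Plays false (fun i => ev i f) (B rB) t qB kB →
      ∃ P, Eve t = some P ∧ P.out (fun i => ev i f) = kB ∧
        P.cost (fun i => ev i f) ≤ 2 * a * (b * Nat.clog 2 (Nat.card H)) := by
  by_cases hK : Nonempty K
  · refine ⟨fun t => some (eve ev A t (b * Nat.clog 2 (Nat.card H)) []), ?_⟩
    intro rA rB f t qA kA qB kB hpA hpB
    refine ⟨_, rfl, ?_⟩
    apply eve_spec ev A B a hA hag rA rB f t qA qB kA kB hpA hpB
    · simp
    · have h1 : (Ann ev qB).relIndex (Ann ev (List.map Prod.fst ([] : List (I × H)))) =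
          (Ann ev qB).index := by
        have : Ann ev (List.map Prod.fst ([] : List (I × H))) = ⊤ := by
          ext g
          simp [mem_Ann]
        rw [this, AddSubgroup.relIndex_top_right]
      rw [h1]
      refine (index_Ann_le ev qB).trans ?_
      have h2 : Nat.card H ≤ 2 ^ Nat.clog 2 (Nat.card H) := Nat.le_pow_clog (by norm_num) _
      calc Nat.card H ^ qB.length ≤ (2 ^ Nat.clog 2 (Nat.card H)) ^ qB.length :=
            Nat.pow_le_pow_left h2 _
        _ = 2 ^ (qB.length * Nat.clog 2 (Nat.card H)) := by rw [← pow_mul, mul_comm]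
        _ ≤ 2 ^ (b * Nat.clog 2 (Nat.card H)) :=
            Nat.pow_le_pow_right (by norm_num)
              (Nat.mul_le_mul_right _ (hB rB f t qB kB hpB))
  · refine ⟨fun _ => none, ?_⟩
    intro rA rB f t qA kA qB kB _ _
    exact absurd ⟨kB⟩ hK

end Pool.Agent.W2helper50.KA
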