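import Pool.Agent.W2helper50.KA.Model

/-!
# Gluing oracles, and the progress of the attack
-/

set_option autoImplicit false

namespace Pool.Agent.W2helper50.KA

variable {G H I M K : Type} [AddCommGroup G] [AddCommGroup H]

omit [AddCommGroup H] in
theorem plays_congr {d : Bool} {o o' : I → H} {S : Party I H M K} {t : List (Bool × M)}
    {qs : List I} {k : K} (h : Plays d o S t qs k) (ho : ∀ i ∈ qs, o i = o' i) :
    Plays d o' S t qs k := by
  induction h with
  | halt k => exact .halt k
  | query h ih =>
    rename_i i c t qs k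
    refine .query ?_
    rw [← ho i (by simp)]
    exact ih (fun j hj => ho j (by simp [hj]))
  | send h ih => exact .send (ih ho)
  | recv h ih => exact .recv (ih ho)

/-- The oracles for which all the queries in the list `l` have the answer `0`. -/
def Ann (ev : I → G →+ H) (l : List I) : AddSubgroup G where
  carrier := {g | ∀ i ∈ l, ev i g = 0}
  zero_mem' := fun i _ => map_zero (ev i)
  add_mem' := fun {a b} ha hb i hi => by rw [map_add, ha i hi, hb i hi, add_zero]
  neg_mem' := fun {a} ha i hi => by rw [map_neg, ha i hi, neg_zero]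

theorem mem_Ann {ev : I → G →+ H} {l : List I} {g : G} : g ∈ Ann ev l ↔ ∀ i ∈ l, ev i g = 0 :=
  Iff.rfl

theorem Ann_append (ev : I → G →+ H) (l l' : List I) : Ann ev (l ++ l') = Ann ev l ⊓ Ann ev l' := by
  ext g
  rw [AddSubgroup.mem_inf, mem_Ann, mem_Ann, mem_Ann]
  simp only [List.mem_append]
  constructor
  · intro h
    exact ⟨fun i hi => h i (Or.inl hi), fun i hi => h i (Or.inr hi)⟩
  · rintro ⟨h1, h2⟩ i (hi | hi)
    · exact h1 i hi
    · exact h2 i hi

theorem sub_mem_Ann {ev : I → G →+ H} {l : List I} {f g : G} (h : ∀ i ∈ l, ev i f = ev i g) :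
    f - g ∈ Ann ev l := fun i hi => by rw [map_sub, h i hi, sub_self]

/-- Two parties which have consistent views of the conversation, with different oracles: if the two
oracles agree on what Eve knows, and the sum of the two subgroups is everything, then there is an
oracle for both. -/
theorem glue {ev : I → G →+ H} {KE : AddSubgroup G} {f f' : G} {S T : Party I H M K}
    {t : List (Bool × M)} {qa qb : List I} {ka kb : K} (hd : f' - f ∈ KE)
    (hA : Plays true (fun i => ev i f') S t qa ka) (hB : Plays false (fun i => ev i f) T t qb kb)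
    (hsup : (KE ⊓ Ann ev qa) ⊔ (KE ⊓ Ann ev qb) = KE) :
    ∃ g : G, Plays true (fun i => ev i g) S t qa ka ∧ Plays false (fun i => ev i g) T t qb kb := by
  rw [← hsup, AddSubgroup.mem_sup] at hd
  obtain ⟨u, hu, v, hv, huv⟩ := hd
  refine ⟨f' - u, plays_congr hA (fun i hi => ?_), plays_congr hB (fun i hi => ?_)⟩
  · rw [map_sub, hu.2 i hi, sub_zero]
  · have h1 : f' - u = f + v := by
      have : f' = f + (u + v) := by
        rw [huv]
        abel
      rw [this]
      abel
    rw [h1, map_add, hv.2 i hi, add_zero]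

/-- If the gluing is impossible, then the index drops by the factor `2` at least. -/
theorem drop [Finite G] {KE A B : AddSubgroup G} (hne : (KE ⊓ A) ⊔ (KE ⊓ B) ≠ KE) :
    2 * B.relIndex (KE ⊓ A) ≤ B.relIndex KE := by
  obtain ⟨S, hS⟩ : ∃ S, S = (KE ⊓ A) ⊔ (KE ⊓ B) := ⟨_, rfl⟩
  have hSle : S ≤ KE := by
    rw [hS]
    exact sup_le inf_le_left inf_le_left
  have h1 : (KE ⊓ B).relIndex S * S.relIndex KE = (KE ⊓ B).relIndex KE := by
    apply AddSubgroup.relIndex_mul_relIndex
    · rw [hS]
      exact le_sup_right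
    · exact hSle
  have h2 : (KE ⊓ B).relIndex S = B.relIndex (KE ⊓ A) := by
    rw [hS, AddSubgroup.relIndex_sup_right]
    have e1 : ((KE ⊓ B) ⊓ (KE ⊓ A)).relIndex (KE ⊓ A) = (KE ⊓ B).relIndex (KE ⊓ A) :=
      AddSubgroup.inf_relIndex_right _ _
    have e2 : (B ⊓ (KE ⊓ A)).relIndex (KE ⊓ A) = B.relIndex (KE ⊓ A) :=
      AddSubgroup.inf_relIndex_right _ _
    rw [← e1, ← e2]
    congr 1
    ext x
    simp only [AddSubgroup.mem_inf]
    tauto
  have h3 : (KE ⊓ B).relIndex KE = B.relIndex KE := AddSubgroup.inf_relIndex_left _ _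
  have h4 : 2 ≤ S.relIndex KE := by
    have h5 : S.relIndex KE ≠ 0 := AddSubgroup.FiniteIndex.index_ne_zero
    have h6 : S.relIndex KE ≠ 1 := by
      intro h
      rw [AddSubgroup.relIndex_eq_one] at h
      exact hne (hS ▸ le_antisymm hSle h)
    omega
  rw [← h3, ← h1, h2, mul_comm]
  exact Nat.mul_le_mul_left _ h4

theorem relIndex_mono [Finite G] {B K L : AddSubgroup G} (h : K ≤ L) :
    B.relIndex K ≤ B.relIndex L :=
  AddSubgroup.relIndex_le_of_le_right h AddSubgroup.FiniteIndex.index_ne_zero

/-- The index of the annihilator of a list of queries. -/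
theorem index_Ann_le [Finite G] [Finite H] (ev : I → G →+ H) (l : List I) :
    (Ann ev l).index ≤ Nat.card H ^ l.length := by
  induction l with
  | nil =>
    have : Ann ev ([] : List I) = ⊤ := by
      ext g
      simp [mem_Ann]
    rw [this]
    simp
  | cons i l ih =>
    have h1 : Ann ev (i :: l) = (ev i).ker ⊓ Ann ev l := by
      ext g
      rw [AddSubgroup.mem_inf, mem_Ann, mem_Ann, AddMonoidHom.mem_ker]
      simp
    rw [h1]
    refine AddSubgroup.index_inf_le.trans ?_
    rw [List.length_cons, pow_succ, mul_comm]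
    apply Nat.mul_le_mul ih
    rw [AddSubgroup.index_ker]
    exact Nat.card_le_card_of_injective (fun x : (ev i).range => (x : H)) Subtype.val_injective

end Pool.Agent.W2helper50.KA
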