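import Mathlib

/-!
# Oracle algorithms, interactive protocols and public-key encryption with an algebraic oracle

The oracle is an element `f` of a finite abelian group `G`, for instance a function from a finite
set to a finite abelian group. A query is (given by) a homomorphism from `G` to a finite abelian
group `H`: the value of `f` at a point, or an arbitrary linear functional of the whole table of `f`,
for instance the value at a point of a low degree extension. Only queries are counted, all
computations are free.
-/

set_option autoImplicit false

namespace Pool.Agent.W2helper50.KA

/-- Oracle algorithms with queries in `I`, answers in `H` and results in `K`: stop with a result, or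
make a query and continue depending on the answer. -/
inductive Alg (I H K : Type) : Type
  | done : K → Alg I H K
  | ask : I → (H → Alg I H K) → Alg I H K

namespace Alg

variable {I H K : Type}

/-- The result, when the queries are answered by `o`. -/
def out : Alg I H K → (I → H) → K
  | done k, _ => k
  | ask i c, o => out (c (o i)) o

/-- The number of queries. -/
def cost : Alg I H K → (I → H) → ℕ
  | done _, _ => 0
  | ask i c, o => cost (c (o i)) o + 1

end Alg

/-- Strategies of a party in an interactive protocol: halt with a result in `K`, make a query, send
a message in `M`, or wait for a message and continue depending on it. -/
inductive Party (I H M K : Type) : Type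
  | halt : K → Party I H M K
  | query : I → (H → Party I H M K) → Party I H M K
  | send : M → Party I H M K → Party I H M K
  | recv : (M → Party I H M K) → Party I H M K

/-- `Plays d o S t qs k`: when the queries are answered by `o`, the party with the strategy `S`
takes its part in the conversation `t`, makes the queries `qs` and halts with the result `k`. The
conversation is the list of all messages in their order; each message has a flag, and the messages
with the flag `d` are those which are sent by this party. -/
inductive Plays {I H M K : Type} (d : Bool) (o : I → H) :
    Party I H M K → List (Bool × M) → List I → K → Prop
  | halt (k : K) : Plays d o (.halt k) [] [] k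
  | query {i : I} {c : H → Party I H M K} {t : List (Bool × M)} {qs : List I} {k : K}
      (h : Plays d o (c (o i)) t qs k) : Plays d o (.query i c) t (i :: qs) k
  | send {m : M} {s : Party I H M K} {t : List (Bool × M)} {qs : List I} {k : K}
      (h : Plays d o s t qs k) : Plays d o (.send m s) ((d, m) :: t) qs k
  | recv {c : M → Party I H M K} {m : M} {t : List (Bool × M)} {qs : List I} {k : K}
      (h : Plays d o (c m) t qs k) : Plays d o (.recv c) ((!d, m) :: t) qs k

/-- A public-key encryption scheme for one-bit messages relative to an oracle. `RG` and `RE` are the
sets of the outcomes of the coins of key generation and encryption, `PK` and `SK` the sets of the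
public and the secret keys (a secret key may contain coins for the decryption), `C` is the set of
the ciphertexts. -/
structure PKE (I H RG RE PK SK C : Type) where
  gen : RG → Alg I H (PK × SK)
  enc : PK → Bool → RE → Alg I H C
  dec : SK → C → Alg I H Bool

namespace PKE

variable {I H RG RE PK SK C : Type} (E : PKE I H RG RE PK SK C)

/-- The public key, for the coins `r` and the oracle answers `o`. -/
def pk (r : RG) (o : I → H) : PK := ((E.gen r).out o).1

/-- The ciphertext of the bit `β`, for the coins `r` of the key generation and the coins `s` of the
encryption. -/
def ct (r : RG) (s : RE) (β : Bool) (o : I → H) : C := (E.enc (E.pk r o) β s).out o

/-- The decryption is right for the oracle answers `o`, for all coins and both messages. -/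
def Correct (o : I → H) : Prop :=
  ∀ (r : RG) (s : RE) (β : Bool), (E.dec ((E.gen r).out o).2 (E.ct r s β o)).out o = β

end PKE

end Pool.Agent.W2helper50.KA
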