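import Pool.Agent.W2helper50.KA.Model

/-!
# Random functions are one-way, also for adversaries with algebraic queries
-/

set_option autoImplicit false

namespace Pool.Agent.W2helper50.KA

open Finset Classical

variable {X Y H : Type} [Fintype X] [Fintype Y] [AddCommGroup Y] [AddCommGroup H] [Fintype H]

/-- The evaluation at `x`. -/
def at' (x : X) : (X → Y) →+ Y := Pi.evalAddMonoidHom (fun _ : X => Y) x

omit [Fintype X] [Fintype Y] in
theorem at'_apply (x : X) (f : X → Y) : at' x f = f x := rfl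

/-- The points at which the functions in a coset of `K` do not take all values equally often. -/
noncomputable def D (K : AddSubgroup (X → Y)) : Finset X :=
  univ.filter (fun x => K.map (at' x) ≠ ⊤)

omit [Fintype Y] in
theorem mem_D {K : AddSubgroup (X → Y)} {x : X} : x ∈ D K ↔ K.map (at' x) ≠ ⊤ := by
  simp [D]

omit [Fintype Y] in
theorem D_mono {K L : AddSubgroup (X → Y)} (h : K ≤ L) : D L ⊆ D K := by
  intro x hx
  rw [mem_D] at hx ⊢
  intro hc
  apply hx
  rw [eq_top_iff, ← hc]
  exact AddSubgroup.map_mono h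

theorem two_pow_card_D_le (K : AddSubgroup (X → Y)) : 2 ^ (D K).card ≤ K.index := by
  have h1 : Nat.card K ≤ ∏ x, Nat.card (K.map (at' x)) := by
    rw [← Nat.card_pi]
    apply Nat.card_le_card_of_injective
      (fun g : K => fun x => (⟨at' x g.1, AddSubgroup.mem_map_of_mem _ g.2⟩ : K.map (at' x)))
    intro g g' hgg
    apply Subtype.ext
    funext x
    have := congrFun hgg x
    exact congrArg Subtype.val this
  have h2 : ∀ x, (if x ∈ D K then 2 else 1) * Nat.card (K.map (at' x)) ≤ Fintype.card Y := by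
    intro x
    have hc : (K.map (at' x)).index * Nat.card (K.map (at' x)) = Fintype.card Y := by
      rw [mul_comm, AddSubgroup.card_mul_index, Nat.card_eq_fintype_card]
    rw [← hc]
    apply Nat.mul_le_mul_right
    have h0 : (K.map (at' x)).index ≠ 0 := AddSubgroup.FiniteIndex.index_ne_zero
    split_ifs with hx
    · rw [mem_D] at hx
      have h3 : (K.map (at' x)).index ≠ 1 := by
        intro h
        exact hx (AddSubgroup.index_eq_one.1 h)
      omega
    · omega
  have h3 : 2 ^ (D K).card * Nat.card K ≤ Nat.card (X → Y) := by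
    calc 2 ^ (D K).card * Nat.card K ≤
        2 ^ (D K).card * ∏ x, Nat.card (K.map (at' x)) := Nat.mul_le_mul_left _ h1
      _ = ∏ x, ((if x ∈ D K then 2 else 1) * Nat.card (K.map (at' x))) := by
        rw [prod_mul_distrib, prod_ite_mem, univ_inter, prod_const]
      _ ≤ ∏ _x : X, Fintype.card Y := prod_le_prod' (fun x _ => h2 x)
      _ = Nat.card (X → Y) := by simp
  rw [← AddSubgroup.card_mul_index K, mul_comm] at h3
  exact Nat.le_of_mul_le_mul_left h3 Nat.card_pos

/-- The points which are determined in part when the algorithm `P` has been run on the oracle `f`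
(and its result has been checked); `K` is the subgroup of the queries that have been made. -/
noncomputable def S : Alg ((X → Y) →+ H) H X → AddSubgroup (X → Y) → (X → Y) → Finset X
  | .done x, K, _ => D (K ⊓ (at' x).ker)
  | .ask φ c, K, f => S (c (φ f)) (K ⊓ φ.ker) f

omit [Fintype Y] [Fintype H] in
theorem D_subset_S (P : Alg ((X → Y) →+ H) H X) : ∀ (K : AddSubgroup (X → Y)) (f : X → Y),
    D K ⊆ S P K f := by
  induction P with
  | done x => intro K f; exact D_mono inf_le_left
  | ask φ c ih => intro K f; exact (D_mono inf_le_left).trans (ih (φ f) _ f)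

omit [Fintype Y] [Fintype H] in
theorem out_mem_S [Nontrivial Y] (P : Alg ((X → Y) →+ H) H X) :
    ∀ (K : AddSubgroup (X → Y)) (f : X → Y), P.out (fun φ => φ f) ∈ S P K f := by
  induction P with
  | done x =>
    intro K f
    simp only [Alg.out, S]
    rw [mem_D]
    intro h
    obtain ⟨y, hy⟩ := exists_ne (0 : Y)
    have : y ∈ (K ⊓ (at' x).ker).map (at' x) := by
      rw [h]
      trivial
    obtain ⟨g, hg, hgy⟩ := this
    exact hy (hgy ▸ hg.2)
  | ask φ c ih => intro K f; exact ih (φ f) _ f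

theorem card_S_le (P : Alg ((X → Y) →+ H) H X) : ∀ (K : AddSubgroup (X → Y)) (f : X → Y),
    2 ^ (S P K f).card ≤
      K.index * (Fintype.card H ^ (P.cost (fun φ => φ f)) * Fintype.card Y) := by
  induction P with
  | done x =>
    intro K f
    simp only [S, Alg.cost, pow_zero, one_mul]
    refine (two_pow_card_D_le _).trans (AddSubgroup.index_inf_le.trans ?_)
    apply Nat.mul_le_mul_left
    rw [AddSubgroup.index_ker, ← Nat.card_eq_fintype_card]
    exact Nat.card_le_card_of_injective (fun z : (at' x : (X → Y) →+ Y).range => (z : Y))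
      Subtype.val_injective
  | ask φ c ih =>
    intro K f
    simp only [S, Alg.cost]
    refine (ih (φ f) (K ⊓ φ.ker) f).trans ?_
    have h1 : (K ⊓ φ.ker).index ≤ K.index * Fintype.card H := by
      refine AddSubgroup.index_inf_le.trans (Nat.mul_le_mul_left _ ?_)
      rw [AddSubgroup.index_ker, ← Nat.card_eq_fintype_card]
      exact Nat.card_le_card_of_injective (fun z : φ.range => (z : H)) Subtype.val_injective
    refine (Nat.mul_le_mul_right _ h1).trans (le_of_eq ?_)
    rw [pow_succ]
    ring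

section num

omit [AddCommGroup Y]

/-- The set of the functions with a property. -/
noncomputable def fset (p : (X → Y) → Prop) : Finset (X → Y) := univ.filter p

theorem mem_fset {p : (X → Y) → Prop} {f : X → Y} : f ∈ fset p ↔ p f := by
  simp [fset]

/-- The number of the functions with a property. -/
noncomputable def num (p : (X → Y) → Prop) : ℕ := (fset p).card

theorem num_congr {p q : (X → Y) → Prop} (h : ∀ f, p f ↔ q f) : num p = num q := by
  unfold num
  congr 1
  ext f
  rw [mem_fset, mem_fset, h f]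

theorem num_mono {p q : (X → Y) → Prop} (h : ∀ f, p f → q f) : num p ≤ num q :=
  card_le_card (fun f hf => by
    rw [mem_fset] at hf ⊢
    exact h f hf)

theorem num_zero {p : (X → Y) → Prop} (h : ∀ f, ¬ p f) : num p = 0 := by
  unfold num
  rw [card_eq_zero, eq_empty_iff_forall_notMem]
  intro f hf
  exact h f (mem_fset.1 hf)

theorem num_split {Z : Type} [Fintype Z] (p : (X → Y) → Prop) (φ : (X → Y) → Z) :
    num p = ∑ z, num (fun f => p f ∧ φ f = z) := by
  unfold num
  rw [card_eq_sum_card_fiberwise (f := φ) (t := univ) (fun _ _ => mem_coe.2 (mem_univ _))]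
  apply sum_congr rfl
  intro z _
  congr 1
  ext f
  rw [mem_filter, mem_fset, mem_fset]

end num

/-- In a coset of `K` all values at `x` are taken equally often. -/
theorem uniform (K : AddSubgroup (X → Y)) (e : X → Y) (x : X) (hx : K.map (at' x) = ⊤) (y : Y) :
    Fintype.card Y * num (fun f => f - e ∈ K ∧ f x = y) = num (fun f => f - e ∈ K) := by
  rw [num_split (fun f => f - e ∈ K) (fun f => f x)]
  have h : ∀ z : Y, num (fun f => f - e ∈ K ∧ f x = z) = num (fun f => f - e ∈ K ∧ f x = y) := by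
    intro z
    obtain ⟨g, hg, hgz⟩ : y - z ∈ K.map (at' x) := by rw [hx]; trivial
    unfold num
    apply card_bij' (fun f _ => f + g) (fun f _ => f - g)
    · intro f hf
      rw [mem_fset] at hf ⊢
      refine ⟨?_, ?_⟩
      · have : f + g - e = (f - e) + g := by abel
        rw [this]
        exact K.add_mem hf.1 hg
      · have h1 : g x = y - z := hgz
        rw [Pi.add_apply, hf.2, h1]
        abel
    · intro f hf
      rw [mem_fset] at hf ⊢
      refine ⟨?_, ?_⟩
      · have : f - g - e = (f - e) - g := by abel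
        rw [this]
        exact K.sub_mem hf.1 hg
      · have h1 : g x = y - z := hgz
        rw [Pi.sub_apply, hf.2, h1]
        abel
    · intro f _
      exact add_sub_cancel_right f g
    · intro f _
      exact sub_add_cancel f g
  rw [sum_congr rfl (fun z _ => h z), sum_const, card_univ, smul_eq_mul]

omit [Fintype X] [Fintype Y] [Fintype H] in
theorem coset_split {H' : Type} [AddCommGroup H'] (K : AddSubgroup (X → Y)) (e : X → Y)
    (φ : (X → Y) →+ H') (h : H') :
    (∃ e', ∀ f, (f - e ∈ K ∧ φ f = h) ↔ f - e' ∈ K ⊓ φ.ker) ∨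
      ∀ f, ¬ (f - e ∈ K ∧ φ f = h) := by
  by_cases hex : ∃ e', e' - e ∈ K ∧ φ e' = h
  · obtain ⟨e', h1, h2⟩ := hex
    refine Or.inl ⟨e', fun f => ?_⟩
    rw [AddSubgroup.mem_inf, AddMonoidHom.mem_ker, map_sub, h2, sub_eq_zero]
    constructor
    · rintro ⟨h3, h4⟩
      refine ⟨?_, h4⟩
      have : f - e' = (f - e) - (e' - e) := by abel
      rw [this]
      exact K.sub_mem h3 h1
    · rintro ⟨h3, h4⟩
      refine ⟨?_, h4⟩
      have : f - e = (f - e') + (e' - e) := by abel
      rw [this]
      exact K.add_mem h3 h1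
  · exact Or.inr (fun f hf => hex ⟨f, hf⟩)

/-- The event that `x` becomes determined in part is independent of the value at `x`. -/
theorem ind₁ (P : Alg ((X → Y) →+ H) H X) : ∀ (K : AddSubgroup (X → Y)) (e : X → Y) (x : X)
    (y : Y), K.map (at' x) = ⊤ →
    Fintype.card Y * num (fun f => f - e ∈ K ∧ x ∈ S P K f ∧ f x = y) =
      num (fun f => f - e ∈ K ∧ x ∈ S P K f) := by
  -- if `x` is determined in part in any case
  have hall : ∀ (P : Alg ((X → Y) →+ H) H X) (K : AddSubgroup (X → Y)) (e : X → Y) (x : X)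
      (y : Y), K.map (at' x) = ⊤ → (∀ f, x ∈ S P K f) →
      Fintype.card Y * num (fun f => f - e ∈ K ∧ x ∈ S P K f ∧ f x = y) =
        num (fun f => f - e ∈ K ∧ x ∈ S P K f) := by
    intro P K e x y hx h
    have e1 : num (fun f => f - e ∈ K ∧ x ∈ S P K f ∧ f x = y) =
        num (fun f => f - e ∈ K ∧ f x = y) :=
      num_congr (fun f => ⟨fun hf => ⟨hf.1, hf.2.2⟩, fun hf => ⟨hf.1, h f, hf.2⟩⟩)
    have e2 : num (fun f => f - e ∈ K ∧ x ∈ S P K f) = num (fun f => f - e ∈ K) :=
      num_congr (fun f => ⟨fun hf => hf.1, fun hf => ⟨hf, h f⟩⟩)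
    rw [e1, e2]
    exact uniform K e x hx y
  induction P with
  | done x₀ =>
    intro K e x y hx
    by_cases h : x ∈ D (K ⊓ (at' x₀).ker)
    · exact hall _ K e x y hx (fun f => h)
    · have e1 : num (fun f => f - e ∈ K ∧ x ∈ S (Alg.done x₀ : Alg ((X → Y) →+ H) H X) K f ∧
          f x = y) = 0 := num_zero (fun f hf => h hf.2.1)
      have e2 : num (fun f => f - e ∈ K ∧ x ∈ S (Alg.done x₀ : Alg ((X → Y) →+ H) H X) K f) = 0 :=
        num_zero (fun f hf => h hf.2)
      rw [e1, e2, mul_zero]
  | ask φ c ih =>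
    intro K e x y hx
    by_cases h : x ∈ D (K ⊓ φ.ker)
    · exact hall _ K e x y hx (fun f => D_subset_S (c (φ f)) _ f h)
    · have hx' : (K ⊓ φ.ker).map (at' x) = ⊤ := by
        by_contra hc
        exact h (mem_D.2 hc)
      rw [num_split _ (fun f => φ f),
        num_split (fun f => f - e ∈ K ∧ x ∈ S (Alg.ask φ c) K f) (fun f => φ f), mul_sum]
      apply sum_congr rfl
      intro z _
      rcases coset_split K e φ z with ⟨e', he'⟩ | hno
      · have h1 := ih z (K ⊓ φ.ker) e' x y hx'
        have e1 : num (fun f => (f - e ∈ K ∧ x ∈ S (Alg.ask φ c) K f ∧ f x = y) ∧ φ f = z) =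
            num (fun f => f - e' ∈ K ⊓ φ.ker ∧ x ∈ S (c z) (K ⊓ φ.ker) f ∧ f x = y) := by
          apply num_congr
          intro f
          rw [← he' f]
          constructor
          · rintro ⟨⟨h2, h3, h4⟩, rfl⟩
            exact ⟨⟨h2, rfl⟩, h3, h4⟩
          · rintro ⟨⟨h2, rfl⟩, h3, h4⟩
            exact ⟨⟨h2, h3, h4⟩, rfl⟩
        have e2 : num (fun f => (f - e ∈ K ∧ x ∈ S (Alg.ask φ c) K f) ∧ φ f = z) =
            num (fun f => f - e' ∈ K ⊓ φ.ker ∧ x ∈ S (c z) (K ⊓ φ.ker) f) := by
          apply num_congr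
          intro f
          rw [← he' f]
          constructor
          · rintro ⟨⟨h2, h3⟩, rfl⟩
            exact ⟨⟨h2, rfl⟩, h3⟩
          · rintro ⟨⟨h2, rfl⟩, h3⟩
            exact ⟨⟨h2, h3⟩, rfl⟩
        rw [e1, e2]
        exact h1
      · have e1 : num (fun f => (f - e ∈ K ∧ x ∈ S (Alg.ask φ c) K f ∧ f x = y) ∧ φ f = z) = 0 :=
          num_zero (fun f hf => hno f ⟨hf.1.1, hf.2⟩)
        have e2 : num (fun f => (f - e ∈ K ∧ x ∈ S (Alg.ask φ c) K f) ∧ φ f = z) = 0 :=
          num_zero (fun f hf => hno f ⟨hf.1.1, hf.2⟩)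
        rw [e1, e2, mul_zero]

/-- `x` is not determined in part and the value at the result is `z`. -/
def Ev (P : Alg ((X → Y) →+ H) H X) (K : AddSubgroup (X → Y)) (x : X) (z : Y) (f : X → Y) :
    Prop :=
  x ∉ S P K f ∧ f (P.out (fun φ => φ f)) = z

omit [Fintype Y] [Fintype H] in
theorem Ev_ask (φ : (X → Y) →+ H) (c : H → Alg ((X → Y) →+ H) H X) (K : AddSubgroup (X → Y))
    (x : X) (z : Y) (f : X → Y) :
    Ev (Alg.ask φ c) K x z f ↔ Ev (c (φ f)) (K ⊓ φ.ker) x z f := by
  unfold Ev
  simp only [S, Alg.out]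

omit [Fintype Y] [Fintype H] in
theorem Ev_done (x₀ : X) (K : AddSubgroup (X → Y)) (x : X) (z : Y) (f : X → Y) :
    Ev (Alg.done x₀ : Alg ((X → Y) →+ H) H X) K x z f ↔
      x ∉ D (K ⊓ (at' x₀).ker) ∧ f x₀ = z := by
  unfold Ev
  simp only [S, Alg.out]

/-- If `x` is not determined in part, then the value at `x` is independent of the value at the
result of the algorithm. -/
theorem ind₂ (P : Alg ((X → Y) →+ H) H X) : ∀ (K : AddSubgroup (X → Y)) (e : X → Y) (x : X)
    (y z : Y),
    Fintype.card Y * num (fun f => f - e ∈ K ∧ Ev P K x z f ∧ f x = y) =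
      num (fun f => f - e ∈ K ∧ Ev P K x z f) := by
  induction P with
  | done x₀ =>
    intro K e x y z
    simp only [Ev_done]
    by_cases h : x ∈ D (K ⊓ (at' x₀).ker)
    · have e1 : num (fun f => f - e ∈ K ∧ (x ∉ D (K ⊓ (at' x₀).ker) ∧ f x₀ = z) ∧
          f x = y) = 0 := num_zero (fun f hf => hf.2.1.1 h)
      have e2 : num (fun f => f - e ∈ K ∧ x ∉ D (K ⊓ (at' x₀).ker) ∧ f x₀ = z) = 0 :=
        num_zero (fun f hf => hf.2.1 h)
      rw [e1, e2, mul_zero]
    · have hx' : (K ⊓ (at' x₀).ker).map (at' x) = ⊤ := by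
        by_contra hc
        exact h (mem_D.2 hc)
      rcases coset_split K e (at' x₀) z with ⟨e', he'⟩ | hno
      · simp only [at'_apply] at he'
        generalize K ⊓ (at' x₀).ker = K' at h hx' he' ⊢
        have e1 : num (fun f => f - e ∈ K ∧ (x ∉ D K' ∧ f x₀ = z) ∧
            f x = y) = num (fun f => f - e' ∈ K' ∧ f x = y) := by
          apply num_congr
          intro f
          rw [← he' f]
          constructor
          · rintro ⟨h1, ⟨_, h2⟩, h3⟩
            exact ⟨⟨h1, h2⟩, h3⟩
          · rintro ⟨⟨h1, h2⟩, h3⟩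
            exact ⟨h1, ⟨h, h2⟩, h3⟩
        have e2 : num (fun f => f - e ∈ K ∧ x ∉ D K' ∧ f x₀ = z) =
            num (fun f => f - e' ∈ K') := by
          apply num_congr
          intro f
          rw [← he' f]
          constructor
          · rintro ⟨h1, ⟨_, h2⟩⟩
            exact ⟨h1, h2⟩
          · rintro ⟨h1, h2⟩
            exact ⟨h1, ⟨h, h2⟩⟩
        rw [e1, e2]
        exact uniform K' e' x hx' y
      · simp only [at'_apply] at hno
        have e1 : num (fun f => f - e ∈ K ∧ (x ∉ D (K ⊓ (at' x₀).ker) ∧ f x₀ = z) ∧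
            f x = y) = 0 := by
          apply num_zero
          rintro f ⟨h1, ⟨h2, h3⟩, h4⟩
          have h5 := hno f
          exact h5 ⟨h1, h3⟩
        have e2 : num (fun f => f - e ∈ K ∧ x ∉ D (K ⊓ (at' x₀).ker) ∧ f x₀ = z) =
            0 := by
          apply num_zero
          rintro f ⟨h1, h2, h3⟩
          have h5 := hno f
          exact h5 ⟨h1, h3⟩
        rw [e1, e2, mul_zero]
  | ask φ c ih =>
    intro K e x y z
    simp only [Ev_ask]
    rw [num_split _ (fun f => φ f),
      num_split (fun f => f - e ∈ K ∧ Ev (c (φ f)) (K ⊓ φ.ker) x z f) (fun f => φ f), mul_sum]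
    apply sum_congr rfl
    intro w _
    rcases coset_split K e φ w with ⟨e', he'⟩ | hno
    · have h1 := ih w (K ⊓ φ.ker) e' x y z
      have e1 : num (fun f => (f - e ∈ K ∧ Ev (c (φ f)) (K ⊓ φ.ker) x z f ∧ f x = y) ∧ φ f = w) =
          num (fun f => f - e' ∈ K ⊓ φ.ker ∧ Ev (c w) (K ⊓ φ.ker) x z f ∧ f x = y) := by
        apply num_congr
        intro f
        rw [← he' f]
        constructor
        · rintro ⟨⟨h2, h3, h4⟩, rfl⟩
          exact ⟨⟨h2, rfl⟩, h3, h4⟩
        · rintro ⟨⟨h2, rfl⟩, h3, h4⟩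
          exact ⟨⟨h2, h3, h4⟩, rfl⟩
      have e2 : num (fun f => (f - e ∈ K ∧ Ev (c (φ f)) (K ⊓ φ.ker) x z f) ∧ φ f = w) =
          num (fun f => f - e' ∈ K ⊓ φ.ker ∧ Ev (c w) (K ⊓ φ.ker) x z f) := by
        apply num_congr
        intro f
        rw [← he' f]
        constructor
        · rintro ⟨⟨h2, h3⟩, rfl⟩
          exact ⟨⟨h2, rfl⟩, h3⟩
        · rintro ⟨⟨h2, rfl⟩, h3⟩
          exact ⟨⟨h2, h3⟩, rfl⟩
      rw [e1, e2]
      exact h1
    · have e1 : num (fun f => (f - e ∈ K ∧ Ev (c (φ f)) (K ⊓ φ.ker) x z f ∧ f x = y) ∧ φ f = w) = 0 :=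
        num_zero (fun f hf => hno f ⟨hf.1.1, hf.2⟩)
      have e2 : num (fun f => (f - e ∈ K ∧ Ev (c (φ f)) (K ⊓ φ.ker) x z f) ∧ φ f = w) = 0 :=
        num_zero (fun f hf => hno f ⟨hf.1.1, hf.2⟩)
      rw [e1, e2, mul_zero]

end Pool.Agent.W2helper50.KA
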