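import Pool.Agent.W2helper50.KA.Attack

/-!
# The attack on public-key encryption
-/

set_option autoImplicit false

namespace Pool.Agent.W2helper50.KA

variable {I H M K J : Type}

/-- Run an algorithm, then continue with a strategy. -/
def Alg.andThen (k : J → Party I H M K) : Alg I H J → Party I H M K
  | .done j => k j
  | .ask i c => .query i (fun h => Alg.andThen k (c h))

theorem plays_andThen {d : Bool} {o : I → H} {k : J → Party I H M K} (P : Alg I H J) :
    ∀ {t : List (Bool × M)} {qs : List I} {key : K}, Plays d o (k (P.out o)) t qs key →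
      ∃ qs', Plays d o (P.andThen k) t qs' key := by
  induction P with
  | done j => intro t qs key h; exact ⟨qs, h⟩
  | ask i c ih =>
    intro t qs key h
    obtain ⟨qs', h'⟩ := ih (o i) h
    exact ⟨i :: qs', .query h'⟩

theorem andThen_plays {d : Bool} {o : I → H} {k : J → Party I H M K} (P : Alg I H J) :
    ∀ {t : List (Bool × M)} {qs : List I} {key : K}, Plays d o (P.andThen k) t qs key →
      ∃ qs', qs.length = P.cost o + qs'.length ∧ Plays d o (k (P.out o)) t qs' key := by
  induction P with
  | done j => intro t qs key h; exact ⟨qs, by simp [Alg.cost], h⟩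
  | ask i c ih =>
    intro t qs key h
    cases h with
    | query h =>
      obtain ⟨qs', h1, h2⟩ := ih (o i) h
      refine ⟨qs', ?_, h2⟩
      simp only [List.length_cons, Alg.cost]
      omega

theorem plays_send {d : Bool} {o : I → H} {m : M} {s : Party I H M K} {t : List (Bool × M)}
    {qs : List I} {k : K} (h : Plays d o (.send m s) t qs k) :
    ∃ t', t = (d, m) :: t' ∧ Plays d o s t' qs k := by
  cases h with
  | send h => exact ⟨_, rfl, h⟩

theorem plays_recv {d : Bool} {o : I → H} {c : M → Party I H M K} {t : List (Bool × M)}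
    {qs : List I} {k : K} (h : Plays d o (.recv c) t qs k) :
    ∃ m t', t = (!d, m) :: t' ∧ Plays d o (c m) t' qs k := by
  cases h with
  | recv h => exact ⟨_, _, rfl, h⟩

theorem plays_halt {d : Bool} {o : I → H} {k' : K} {t : List (Bool × M)}
    {qs : List I} {k : K} (h : Plays d o (.halt k' : Party I H M K) t qs k) :
    t = [] ∧ qs = [] ∧ k = k' := by
  cases h
  exact ⟨rfl, rfl, rfl⟩

variable {RG RE PK SK C : Type}

/-- The receiver. -/
def alice (E : PKE I H RG RE PK SK C) (r : RG) : Party I H (PK ⊕ C) Bool :=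
  Alg.andThen (fun p => .send (.inl p.1) (.recv (fun m =>
    match m with
    | .inl _ => .halt false
    | .inr c => Alg.andThen (fun β => .halt β) (E.dec p.2 c)))) (E.gen r)

/-- The sender. -/
def bob (E : PKE I H RG RE PK SK C) (r : Bool × RE) : Party I H (PK ⊕ C) Bool :=
  .recv (fun m =>
    match m with
    | .inl pk => Alg.andThen (fun c => .send (.inr c) (.halt r.1)) (E.enc pk r.1 r.2)
    | .inr _ => .halt false)

/-- The conversations of the receiver. -/
theorem alice_plays {E : PKE I H RG RE PK SK C} {r : RG} {o : I → H} {t : List (Bool × (PK ⊕ C))}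
    {qs : List I} {key : Bool} (h : Plays true o (alice E r) t qs key) :
    (∃ x, t = [(true, .inl (E.pk r o)), (false, .inl x)] ∧ qs.length = (E.gen r).cost o) ∨
    ∃ c, t = [(true, .inl (E.pk r o)), (false, .inr c)] ∧
      key = (E.dec ((E.gen r).out o).2 c).out o ∧
      qs.length = (E.gen r).cost o + (E.dec ((E.gen r).out o).2 c).cost o := by
  obtain ⟨q1, hl, h1⟩ := andThen_plays _ h
  obtain ⟨t1, rfl, h2⟩ := plays_send h1
  obtain ⟨m, t2, rfl, h3⟩ := plays_recv h2
  rcases m with x | c
  · obtain ⟨rfl, rfl, rfl⟩ := plays_halt h3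
    left
    refine ⟨x, rfl, ?_⟩
    simpa using hl
  · obtain ⟨q2, hl2, h4⟩ := andThen_plays _ h3
    obtain ⟨rfl, rfl, rfl⟩ := plays_halt h4
    right
    refine ⟨c, rfl, rfl, ?_⟩
    simp only [List.length_nil, add_zero] at hl2
    omega

/-- The conversations of the sender. -/
theorem bob_plays {E : PKE I H RG RE PK SK C} {r : Bool × RE} {o : I → H}
    {t : List (Bool × (PK ⊕ C))} {qs : List I} {key : Bool}
    (h : Plays false o (bob E r) t qs key) :
    (∃ x, t = [(true, .inr x)] ∧ qs = []) ∨
    ∃ pk, t = [(true, .inl pk), (false, .inr ((E.enc pk r.1 r.2).out o))] ∧ key = r.1 ∧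
      qs.length = (E.enc pk r.1 r.2).cost o := by
  obtain ⟨m, t2, rfl, h1⟩ := plays_recv h
  rcases m with pk | x
  · obtain ⟨q2, hl2, h2⟩ := andThen_plays _ h1
    obtain ⟨t3, rfl, h3⟩ := plays_send h2
    obtain ⟨rfl, rfl, rfl⟩ := plays_halt h3
    right
    exact ⟨pk, rfl, rfl, by simpa using hl2⟩
  · obtain ⟨rfl, rfl, rfl⟩ := plays_halt h1
    left
    exact ⟨x, rfl, rfl⟩

theorem pke {G : Type} [AddCommGroup G] [Finite G] [AddCommGroup H] [Finite H]
    (ev : I → G →+ H) (E : PKE I H RG RE PK SK C) (g e d : ℕ)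
    (hcor : ∀ f : G, E.Correct (fun i => ev i f))
    (hg : ∀ r (f : G), (E.gen r).cost (fun i => ev i f) ≤ g)
    (he : ∀ pk β s (f : G), (E.enc pk β s).cost (fun i => ev i f) ≤ e)
    (hd : ∀ sk c (f : G), (E.dec sk c).cost (fun i => ev i f) ≤ d) :
    ∃ Eve : PK → C → Alg I H Bool, ∀ (r : RG) (s : RE) (β : Bool) (f : G),
      (Eve (E.pk r (fun i => ev i f)) (E.ct r s β (fun i => ev i f))).out (fun i => ev i f) = β ∧
      (Eve (E.pk r (fun i => ev i f)) (E.ct r s β (fun i => ev i f))).cost (fun i => ev i f) ≤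
        2 * (g + d) * (e * Nat.clog 2 (Nat.card H)) := by
  have hA : ∀ r (f : G) t qs k, Plays true (fun i => ev i f) (alice E r) t qs k →
      qs.length ≤ g + d := by
    intro r f t qs k h
    rcases alice_plays h with ⟨x, _, h1⟩ | ⟨c, _, _, h1⟩
    · have := hg r f
      omega
    · have h2 := hg r f
      have h3 := hd ((E.gen r).out (fun i => ev i f)).2 c f
      omega
  have hB : ∀ r (f : G) t qs k, Plays false (fun i => ev i f) (bob E r) t qs k →
      qs.length ≤ e := by
    intro r f t qs k h
    rcases bob_plays h with ⟨x, _, h1⟩ | ⟨pk, _, _, h1⟩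
    · rw [h1]
      simp
    · have := he pk r.1 r.2 f
      omega
  have hag : ∀ rA rB (f : G) t qA kA qB kB, Plays true (fun i => ev i f) (alice E rA) t qA kA →
      Plays false (fun i => ev i f) (bob E rB) t qB kB → kA = kB := by
    intro rA rB f t qA kA qB kB h1 h2
    rcases bob_plays h2 with ⟨x, ht, _⟩ | ⟨pk, ht, hk, _⟩
    · rcases alice_plays h1 with ⟨y, ht', _⟩ | ⟨c, ht', _⟩
      · rw [ht] at ht'
        simp at ht'
      · rw [ht] at ht'
        simp at ht'
    · rcases alice_plays h1 with ⟨y, ht', _⟩ | ⟨c, ht', hk', _⟩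
      · rw [ht] at ht'
        simp at ht'
      · rw [ht] at ht'
        simp only [List.cons.injEq, Prod.mk.injEq, Sum.inl.injEq, Sum.inr.injEq, true_and,
          and_true] at ht'
        obtain ⟨h3, h4⟩ := ht'
        rw [hk', ← h4, h3, hk]
        exact hcor f rA rB.2 rB.1
  obtain ⟨Eve, hEve⟩ := keyAgreement ev (alice E) (bob E) (g + d) e hA hB hag
  refine ⟨fun pk c => (Eve [(true, .inl pk), (false, .inr c)]).getD (.done false), ?_⟩
  intro r s β f
  obtain ⟨q1, h1⟩ : ∃ q1, Plays true (fun i => ev i f) (alice E r)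
      [(true, .inl (E.pk r (fun i => ev i f))), (false, .inr (E.ct r s β (fun i => ev i f)))] q1
      ((E.dec ((E.gen r).out (fun i => ev i f)).2 (E.ct r s β (fun i => ev i f))).out
        (fun i => ev i f)) := by
    obtain ⟨q2, h2⟩ := plays_andThen (d := true) (o := fun i => ev i f)
      (k := fun β : Bool => (Party.halt β : Party I H (PK ⊕ C) Bool))
      (E.dec ((E.gen r).out (fun i => ev i f)).2 (E.ct r s β (fun i => ev i f))) (.halt _)
    exact plays_andThen _ (.send (.recv h2))
  obtain ⟨q3, h3⟩ : ∃ q3, Plays false (fun i => ev i f) (bob E (β, s))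
      [(true, .inl (E.pk r (fun i => ev i f))), (false, .inr (E.ct r s β (fun i => ev i f)))] q3
      β := by
    obtain ⟨q4, h4⟩ := plays_andThen (d := false) (o := fun i => ev i f)
      (k := fun c : C => (Party.send (.inr c) (.halt β) : Party I H (PK ⊕ C) Bool))
      (E.enc (E.pk r (fun i => ev i f)) β s) (.send (.halt β))
    exact ⟨q4, .recv h4⟩
  obtain ⟨P, hP1, hP2, hP3⟩ := hEve r (β, s) f _ _ _ _ _ h1 h3
  simp only [hP1, Option.getD_some]
  exact ⟨hP2, hP3⟩

end Pool.Agent.W2helper50.KA
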